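import Mathlib

set_option autoImplicit false

namespace Pool.Agent.H.MP_9fddba_co

abbrev G := ZMod 2 × ZMod 2 × ZMod 2 × ZMod 6

def enc (x : G) : ℕ :=
  x.1.val + 2 * x.2.1.val + 4 * x.2.2.1.val + 8 * (x.2.2.2.val % 2) + 16 * (x.2.2.2.val % 3)

def ad (x a b : ℕ) : ℕ := Nat.mod (Nat.add (Nat.xor x a) b) 48

lemma enc_add : ∀ x g : G, enc (x + g) = ad (enc x) (enc g % 16) (enc g - enc g % 16) := by
  decide +kernel

def ZF (N : G → Prop) (S : Multiset G) : Prop := ∀ U ≤ S, U ≠ 0 → N U.sum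

lemma ZF.cons {N : G → Prop} {S : Multiset G} {g : G} (h : ZF N (g ::ₘ S)) :
    ZF (fun x => N x ∧ N (x + g)) S := by
  intro U hU h0
  refine ⟨h U (hU.trans (Multiset.le_cons_self _ _)) h0, ?_⟩
  have := h (g ::ₘ U) (Multiset.cons_le_cons g hU) Multiset.cons_ne_zero
  rwa [Multiset.sum_cons, add_comm] at this

lemma ZF.mem {N : G → Prop} {S : Multiset G} {g : G} (h : ZF N S) (hg : g ∈ S) : N g := by
  simpa using h {g} (Multiset.singleton_le.mpr hg) (by simp)

def force (n : ℕ) (f : ℕ → Bool) : Bool := Nat.casesOn n (f 0) (fun k => f (Nat.succ k))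

lemma force_eq (n : ℕ) (f : ℕ → Bool) : force n f = f n := by cases n <;> rfl

def tb (m y : ℕ) : Bool := Nat.beq (Nat.land (Nat.shiftRight m y) 1) 1

lemma tb_eq (m y : ℕ) : tb m y = m.testBit y := by
  have e : tb m y = Nat.beq ((m >>> y) &&& 1) 1 := rfl
  rw [e, Nat.and_one_is_mod, Nat.testBit_eq_decide_div_mod_eq, Nat.shiftRight_eq_div_pow]
  rw [Bool.eq_iff_iff, Nat.beq_eq, decide_eq_true_eq]

noncomputable def nxt (L : List ℕ) (m a b : ℕ) : (List ℕ → ℕ → Bool) → Bool :=
  List.rec (motive := fun _ => (List ℕ → ℕ → Bool) → Bool) (fun k => k [] 0)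
    (fun x _ ih k => cond (tb m (ad x a b))
      (ih fun t w => force (Nat.lor w (Nat.pow 2 x)) fun w' => k (x :: t) w') (ih k)) L

lemma nxt_spec (m a b : ℕ) (L : List ℕ) : ∀ k : List ℕ → ℕ → Bool, ∃ L' m',
    nxt L m a b k = k L' m' ∧
      ∀ x ∈ L, m.testBit (ad x a b) = true → x ∈ L' ∧ m'.testBit x = true := by
  induction L with
  | nil => intro k; exact ⟨[], 0, rfl, by simp⟩
  | cons y L ih =>
    intro k
    have e : nxt (y :: L) m a b k = cond (tb m (ad y a b))
      (nxt L m a b fun t w => force (Nat.lor w (Nat.pow 2 y)) fun w' => k (y :: t) w')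
      (nxt L m a b k) := rfl
    rw [e, tb_eq]
    cases h : m.testBit (ad y a b) with
    | true =>
      obtain ⟨L', m', h1, h2⟩ := ih fun t w =>
        force (Nat.lor w (Nat.pow 2 y)) fun w' => k (y :: t) w'
      refine ⟨y :: L', m' ||| 2 ^ y, h1.trans (force_eq _ _), ?_⟩
      intro x hx hb
      rcases List.mem_cons.mp hx with rfl | hx
      · simp
      · simp [h2 x hx hb]
    | false =>
      obtain ⟨L', m', h1, h2⟩ := ih k
      refine ⟨L', m', h1, ?_⟩
      intro x hx hb
      rcases List.mem_cons.mp hx with rfl | hx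
      · rw [h] at hb; exact absurd hb Bool.false_ne_true
      · exact h2 x hx hb

noncomputable def allF (p : ℕ → Bool) (lo : ℕ) (L : List ℕ) : Bool :=
  List.rec (motive := fun _ => Bool) true
    (fun g _ r => cond (Nat.ble lo g) (cond (p g) r false) r) L

lemma allF_spec (p : ℕ → Bool) (lo : ℕ) (L : List ℕ) (h : allF p lo L = true) :
    ∀ g ∈ L, lo ≤ g → p g = true := by
  induction L with
  | nil => simp
  | cons y L ih =>
    have e : allF p lo (y :: L) =
      cond (Nat.ble lo y) (cond (p y) (allF p lo L) false) (allF p lo L) := rfl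
    rw [e] at h
    intro g hg hlo
    rcases List.mem_cons.mp hg with rfl | hg
    · rw [Nat.ble_eq_true_of_le hlo] at h
      cases hp : p g with
      | true => rfl
      | false => rw [hp] at h; exact h
    · apply ih _ g hg hlo
      cases hb : Nat.ble lo y <;> cases hp : p y <;> rw [hb, hp] at h <;> first | exact h | cases h

noncomputable def chk (k : ℕ) : List ℕ → ℕ → ℕ → Bool :=
  Nat.rec (motive := fun _ => List ℕ → ℕ → ℕ → Bool) (fun _ _ _ => false)
    (fun _ ih L m lo => allF (fun g => force (Nat.mod g 16) fun a => force (Nat.sub g a) fun b =>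
      nxt L m a b fun L' m' => ih L' m' g) lo L) k

def Inv (N : G → Prop) (L : List ℕ) (m : ℕ) : Prop :=
  ∀ x, N x → enc x ∈ L ∧ m.testBit (enc x) = true

lemma Inv.step {N : G → Prop} {L : List ℕ} {m : ℕ} (h : Inv N L m) (g : G)
    (k : List ℕ → ℕ → Bool) : ∃ L' m', nxt L m (enc g % 16) (enc g - enc g % 16) k = k L' m' ∧
      Inv (fun x => N x ∧ N (x + g)) L' m' := by
  obtain ⟨L', m', h1, h2⟩ := nxt_spec m (enc g % 16) (enc g - enc g % 16) L k
  refine ⟨L', m', h1, fun x hx => h2 _ (h x hx.1).1 ?_⟩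
  rw [← enc_add]
  exact (h _ hx.2).2

lemma chk_sound (k : ℕ) : ∀ (L : List ℕ) (m lo : ℕ) (N : G → Prop) (S : Multiset G),
    chk k L m lo = true → S.card = k → ZF N S → Inv N L m → (∀ x ∈ S, lo ≤ enc x) → False := by
  induction k with
  | zero => intro L m lo N S h; exact absurd h Bool.false_ne_true
  | succ k ih =>
    intro L m lo N S h hc hz hi hlo
    have h0 : S ≠ 0 := by rintro rfl; simp at hc
    obtain ⟨g, hg, hmin⟩ := Multiset.exists_min_image enc h0
    obtain ⟨S', rfl⟩ := Multiset.exists_cons_of_mem hg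
    have h1 := allF_spec _ _ _ h (enc g) (hi g (hz.mem hg)).1 (hlo g hg)
    rw [force_eq, force_eq] at h1
    obtain ⟨L', m', h2, h3⟩ := hi.step g fun L' m' => chk k L' m' (enc g)
    exact ih L' m' (enc g) _ S' (h2.symm.trans h1) (by simpa using hc) hz.cons h3
      fun x hx => hmin x (Multiset.mem_cons_of_mem hx)

noncomputable def chkP (gs : List ℕ) : List ℕ → ℕ → Bool :=
  List.rec (motive := fun _ => List ℕ → ℕ → Bool) (fun L m => chk 5 L m 0)
    (fun g _ ih L m => nxt L m (g % 16) (g - g % 16) ih) gs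

lemma chkP_sound (S : Multiset G) (hc : S.card = 5) (B : List G) :
    ∀ (L : List ℕ) (m : ℕ) (N : G → Prop),
    chkP (B.map enc) L m = true → ZF N (↑B + S) → Inv N L m → False := by
  induction B with
  | nil =>
    intro L m N h hz hi
    exact chk_sound 5 L m 0 N S h hc (by simpa using hz) hi fun _ _ => Nat.zero_le _
  | cons g B ih =>
    intro L m N h hz hi
    obtain ⟨L', m', h2, h3⟩ := hi.step g (chkP (B.map enc))
    rw [← Multiset.cons_coe, Multiset.cons_add] at hz
    exact ih L' m' _ (h2.symm.trans h) hz.cons h3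

lemma comp : ∀ a b c d : Fin 3, a ≤ b → b ≤ c → c ≤ d →
    chkP [1 + 16 * a.val, 2 + 16 * b.val, 4 + 16 * c.val, 8 + 16 * d.val]
      (List.range' 1 47) 281474976710654 = true := by
  decide +kernel

end Pool.Agent.H.MP_9fddba_co
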