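import Mathlib
import Pool.Agent.H.MP_9fddba_co.D

set_option autoImplicit false

namespace Pool.Agent.H.MP_9fddba_co

def SpL : List G → G → Prop
  | [], x => 3 • x = 0
  | s :: l, x => SpL l x ∨ SpL l (x + s)

instance decSpL : (l : List G) → DecidablePred (SpL l)
  | [], x => inferInstanceAs (Decidable (3 • x = 0))
  | s :: l, x => @instDecidableOr _ _ (decSpL l x) (decSpL l (x + s))

lemma six : ∀ x : G, 6 • x = 0 := by decide +kernel

lemma SpL.congr (l : List G) : ∀ {x y : G}, 3 • x = 3 • y → SpL l x → SpL l y := by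
  induction l with
  | nil => intro x y h hx; exact h.symm.trans hx
  | cons s l ih =>
    intro x y h hx
    rcases hx with hx | hx
    · exact Or.inl (ih h hx)
    · exact Or.inr (ih (by rw [nsmul_add, nsmul_add, h]) hx)

lemma SpL.add (l : List G) : ∀ {x y : G}, SpL l x → SpL l y → SpL l (x + y) := by
  induction l with
  | nil =>
    intro x y hx hy
    show 3 • (x + y) = 0
    rw [nsmul_add, show 3 • x = 0 from hx, show 3 • y = 0 from hy, add_zero]
  | cons s l ih =>
    intro x y hx hy
    rcases hx with hx | hx <;> rcases hy with hy | hy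
    · exact Or.inl (ih hx hy)
    · exact Or.inr (by have := ih hx hy; rwa [← add_assoc] at this)
    · exact Or.inr (by have := ih hx hy; rwa [add_right_comm] at this)
    · refine Or.inl (SpL.congr l ?_ (ih hx hy))
      have : 3 • (x + s + (y + s)) = 3 • (x + y) + 6 • s := by abel
      rw [this, six, add_zero]

lemma SpL.perm {l l' : List G} (h : l.Perm l') : ∀ x, SpL l x → SpL l' x := by
  induction h with
  | nil => exact fun _ h => h
  | cons s _ ih => exact fun x hx => hx.imp (ih _) (ih _)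
  | swap a b l =>
    intro x hx
    rcases hx with (hx | hx) | (hx | hx)
    · exact Or.inl (Or.inl hx)
    · exact Or.inr (Or.inl hx)
    · exact Or.inl (Or.inr hx)
    · exact Or.inr (Or.inr (by rwa [add_right_comm] at hx))
  | trans _ _ ih1 ih2 => exact fun x hx => ih2 x (ih1 x hx)

lemma card_cons (l : List G) (s : G) (h : ¬ SpL l s) :
    (Finset.univ.filter (SpL (s :: l))).card = 2 * (Finset.univ.filter (SpL l)).card := by
  have e : Finset.univ.filter (SpL (s :: l)) =
      Finset.univ.filter (SpL l) ∪ Finset.univ.filter (fun x => SpL l (x + s)) := by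
    ext x
    simp only [Finset.mem_filter, Finset.mem_univ, true_and, Finset.mem_union]
    rfl
  have hd : Disjoint (Finset.univ.filter (SpL l)) (Finset.univ.filter (fun x => SpL l (x + s))) := by
    rw [Finset.disjoint_filter]
    intro x _ h1 h2
    refine h (SpL.congr l ?_ (SpL.add l h1 h2))
    have : 3 • (x + (x + s)) = 3 • s + 6 • x := by abel
    rw [this, six, add_zero]
  have hc : (Finset.univ.filter (fun x => SpL l (x + s))).card =
      (Finset.univ.filter (SpL l)).card := by
    apply Finset.card_equiv (Equiv.addRight s)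
    simp
  rw [e, Finset.card_union_of_disjoint hd, hc, two_mul]

lemma full {a b c d : G} (ha : ¬ SpL [] a) (hb : ¬ SpL [a] b) (hc : ¬ SpL [b, a] c)
    (hd : ¬ SpL [c, b, a] d) (x : G) : SpL [d, c, b, a] x := by
  have h0 : (Finset.univ.filter (SpL [])).card = 3 := by decide +kernel
  have h4 : (Finset.univ.filter (SpL [d, c, b, a])).card = Fintype.card G := by
    rw [card_cons _ _ hd, card_cons _ _ hc, card_cons _ _ hb, card_cons _ _ ha, h0]
    simp [G]
  have := Finset.eq_univ_of_card _ h4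
  exact (Finset.mem_filter.mp (this ▸ Finset.mem_univ x)).2

lemma pick (p : G → Prop) (S : Multiset G) (h : 0 < S.card) :
    ∃ s S', S = s ::ₘ S' ∧ (¬ p s ∨ ∀ x ∈ S', p x) := by
  by_cases hp : ∀ x ∈ S, p x
  · obtain ⟨s, hs⟩ := Multiset.card_pos_iff_exists_mem.mp h
    obtain ⟨S', rfl⟩ := Multiset.exists_cons_of_mem hs
    exact ⟨s, S', rfl, Or.inr fun x hx => hp x (Multiset.mem_cons_of_mem hx)⟩
  · push Not at hp
    obtain ⟨s, hs, hn⟩ := hp
    obtain ⟨S', rfl⟩ := Multiset.exists_cons_of_mem hs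
    exact ⟨s, S', rfl, Or.inl hn⟩

lemma basis (S : Multiset G) (h : S.card = 9) :
    ∃ (B : List G) (S' : Multiset G), B.length = 4 ∧ S'.card = 5 ∧ S = ↑B + S' ∧
      ∀ x ∈ S', SpL B x := by
  obtain ⟨a, S1, rfl, ha⟩ := pick (SpL []) S (by omega)
  rw [Multiset.card_cons] at h
  obtain ⟨b, S2, rfl, hb⟩ := pick (SpL [a]) S1 (by omega)
  rw [Multiset.card_cons] at h
  obtain ⟨c, S3, rfl, hc⟩ := pick (SpL [b, a]) S2 (by omega)
  rw [Multiset.card_cons] at h
  obtain ⟨d, S4, rfl, hd⟩ := pick (SpL [c, b, a]) S3 (by omega)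
  rw [Multiset.card_cons] at h
  refine ⟨[d, c, b, a], S4, rfl, by omega, ?_, ?_⟩
  · simp only [← Multiset.cons_coe, Multiset.coe_nil, Multiset.cons_add, zero_add]
    rw [Multiset.cons_swap a, Multiset.cons_swap a, Multiset.cons_swap a, Multiset.cons_swap b,
      Multiset.cons_swap b, Multiset.cons_swap c]
  · intro x hx
    rcases ha with ha | ha
    · rcases hb with hb | hb
      · rcases hc with hc | hc
        · rcases hd with hd | hd
          · exact full ha hb hc hd x
          · exact Or.inl (hd x hx)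
        · exact Or.inl (Or.inl (hc x (by simp [hx])))
      · exact Or.inl (Or.inl (Or.inl (hb x (by simp [hx]))))
    · exact Or.inl (Or.inl (Or.inl (Or.inl (ha x (by simp [hx])))))

def key (s : G) : Fin 3 := ⟨s.2.2.2.val % 3, Nat.mod_lt _ (by norm_num)⟩

lemma v2 : ∀ (u v : ZMod 2) (s : G), (u + v).val • 3 • s = u.val • 3 • s + v.val • 3 • s := by
  decide +kernel

lemma v6 : ∀ (u v : ZMod 6) (s : G), (u + v).val • 3 • s = u.val • 3 • s + v.val • 3 • s := by
  decide +kernel

def psi (a b c d : G) : G →+ G := AddMonoidHom.mk'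
  (fun x => x.1.val • 3 • a + x.2.1.val • 3 • b + x.2.2.1.val • 3 • c + x.2.2.2.val • 3 • d + 4 • x)
  (by
    intro x y
    simp only [Prod.fst_add, Prod.snd_add, v2, v6, nsmul_add]
    abel)

lemma four1 : ∀ s : G, (4 • s).1.val = 0 ∧ (4 • s).2.1.val = 0 ∧ (4 • s).2.2.1.val = 0 ∧
    4 • 4 • s = 4 • s ∧ 3 • s + 4 • s = s := by decide +kernel

lemma four2 : ∀ s d : G, (4 • s).2.2.2.val • 3 • d = 0 := by decide +kernel

lemma psi_four (a b c d s : G) : psi a b c d (4 • s) = 4 • s := by
  obtain ⟨h1, h2, h3, h4, _⟩ := four1 s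
  simp only [psi, AddMonoidHom.mk'_apply, h1, h2, h3, h4, four2, zero_nsmul, zero_add]

lemma nine : ∀ d : G, (3 : ZMod 6).val • 3 • d = 3 • d := by decide +kernel

lemma psi_e (a b c d : G) :
    psi a b c d ((1, 0, 0, 0) + 4 • a) = a ∧ psi a b c d ((0, 1, 0, 0) + 4 • b) = b ∧
    psi a b c d ((0, 0, 1, 0) + 4 • c) = c ∧ psi a b c d ((0, 0, 0, 3) + 4 • d) = d := by
  have h1 : (1 : ZMod 2).val = 1 := rfl
  have e1 : 4 • ((1, 0, 0, 0) : G) = 0 := by decide
  have e2 : 4 • ((0, 1, 0, 0) : G) = 0 := by decide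
  have e3 : 4 • ((0, 0, 1, 0) : G) = 0 := by decide
  have e4 : 4 • ((0, 0, 0, 3) : G) = 0 := by decide
  simp only [map_add, psi_four]
  simp only [psi, AddMonoidHom.mk'_apply, ZMod.val_zero, zero_nsmul, zero_add, add_zero, h1,
    one_nsmul, e1, e2, e3, e4, nine]
  exact ⟨(four1 a).2.2.2.2, (four1 b).2.2.2.2, (four1 c).2.2.2.2, (four1 d).2.2.2.2⟩

lemma mem_range (f : G →+ G) (h0 : ∀ s, f (4 • s) = 4 • s) (l : List G) :
    (∀ s ∈ l, s ∈ f.range) → ∀ x, SpL l x → x ∈ f.range := by
  induction l with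
  | nil =>
    intro _ x hx
    refine ⟨4 • x, ?_⟩
    rw [h0]
    have := (four1 x).2.2.2.2
    rwa [show 3 • x = 0 from hx, zero_add] at this
  | cons s l ih =>
    intro h x hx
    have ih' := ih fun t ht => h t (List.mem_cons_of_mem _ ht)
    rcases hx with hx | hx
    · exact ih' x hx
    · have := f.range.sub_mem (ih' _ hx) (h s List.mem_cons_self)
      rwa [add_sub_cancel_right] at this

lemma enc_e : ∀ s : G, enc ((1, 0, 0, 0) + 4 • s) = 1 + 16 * (key s).val ∧
    enc ((0, 1, 0, 0) + 4 • s) = 2 + 16 * (key s).val ∧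
    enc ((0, 0, 1, 0) + 4 • s) = 4 + 16 * (key s).val ∧
    enc ((0, 0, 0, 3) + 4 • s) = 8 + 16 * (key s).val := by decide +kernel

theorem dav (S : Multiset G) (h : S.card = 9) : ∃ U ≤ S, U ≠ 0 ∧ U.sum = 0 := by
  by_contra hn
  push Not at hn
  obtain ⟨B, S', hB, hS', rfl, hsp⟩ := basis S h
  let r : G → G → Prop := fun x y => key x ≤ key y
  have : Std.Total r := ⟨fun x y => le_total _ _⟩
  have : IsTrans G r := ⟨fun x y z => le_trans⟩
  have hp := List.perm_insertionSort r B
  have hs := List.pairwise_insertionSort r B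
  have hl := List.length_insertionSort r B
  rw [hB] at hl
  generalize B.insertionSort r = B' at hp hs hl
  match B', hl with
  | [a, b, c, d], _ =>
    obtain ⟨p1, p2, p3, p4⟩ := psi_e a b c d
    have hr : ∀ x ∈ S', ∃ y, psi a b c d y = x := fun x hx =>
      mem_range (psi a b c d) (psi_four a b c d) [a, b, c, d] (by
        intro s hs
        simp only [List.mem_cons, List.not_mem_nil, or_false] at hs
        rcases hs with rfl | rfl | rfl | rfl
        exacts [⟨_, p1⟩, ⟨_, p2⟩, ⟨_, p3⟩, ⟨_, p4⟩]) x (SpL.perm hp.symm x (hsp x hx))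
    choose! f hf using hr
    have hm : (↑([(1, 0, 0, 0) + 4 • a, (0, 1, 0, 0) + 4 • b, (0, 0, 1, 0) + 4 • c,
        (0, 0, 0, 3) + 4 • d] : List G) + S'.map f : Multiset G).map (psi a b c d) = ↑B + S' := by
      rw [Multiset.map_add, Multiset.map_map, Multiset.map_coe, ← Multiset.coe_eq_coe.mpr hp]
      simp only [List.map_cons, List.map_nil, p1, p2, p3, p4]
      congr 1
      conv_rhs => rw [← Multiset.map_id S']
      exact Multiset.map_congr rfl hf
    simp only [List.pairwise_cons, List.mem_cons, List.not_mem_nil, or_false, forall_eq_or_imp,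
      forall_eq] at hs
    refine chkP_sound (S'.map f) (by simpa using hS') [(1, 0, 0, 0) + 4 • a, (0, 1, 0, 0) + 4 • b,
      (0, 0, 1, 0) + 4 • c, (0, 0, 0, 3) + 4 • d] (List.range' 1 47) 281474976710654
      (fun x => x ≠ 0) ?_ ?_ ?_
    · simp only [List.map_cons, List.map_nil, (enc_e a).1, (enc_e b).2.1, (enc_e c).2.2.1,
        (enc_e d).2.2.2]
      exact comp _ _ _ _ hs.1.1 hs.2.1.1 hs.2.2.1
    · intro U hU h0 hsum
      refine hn (U.map (psi a b c d)) (hm ▸ Multiset.map_le_map hU) (by simpa using h0) ?_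
      rw [← map_multiset_sum, hsum, map_zero]
    · unfold Inv
      decide +kernel

end Pool.Agent.H.MP_9fddba_co
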